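import Pool.Agent.Q279.CD.Prog

/-!
# Infinitely many maximal `(ν₃, 2)`-progressions (MP_c222f6_nt, Q2)
-/

set_option autoImplicit false

namespace Pool.Agent.Results.MP_c222f6_nt.NuThree

/-- `ν_k(m)`: the number of partitions of `m` with exactly `k` distinct part sizes. -/
def ν (k m : ℕ) : ℕ :=
  (Finset.univ.filter fun p : Nat.Partition m => p.parts.toFinset.card = k).card

/-- `P(A, B) = {A n + B : n ≥ 0}`. -/
def P (A B : ℕ) : Set ℕ := {m | ∃ n : ℕ, m = A * n + B}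

/-- `(A, B)`, with `A ≥ 1` and `1 ≤ B ≤ A`, is a `(ν_k, M)`-progression. -/
def IsProgression (k M A B : ℕ) : Prop :=
  1 ≤ A ∧ 1 ≤ B ∧ B ≤ A ∧ ∀ n : ℕ, ν k (A * n + B) ≡ 0 [MOD M]

/-- `(A, B)` is a maximal `(ν_k, M)`-progression. -/
def IsMaximal (k M A B : ℕ) : Prop :=
  IsProgression k M A B ∧ ¬ ∃ A' B', IsProgression k M A' B' ∧ P A B ⊂ P A' B'

/-- Q2: there are infinitely many maximal `(ν₃, 2)`-progressions. -/
theorem result : {p : ℕ × ℕ | IsMaximal 3 2 p.1 p.2}.Infinite :=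
  Q279.CD.infinite_three

end Pool.Agent.Results.MP_c222f6_nt.NuThree
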